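import Pool.Agent.P8H40.CY.Stm

/-!
# Package CY/POL (for helper40): homogenised substitution into a polynomial
-/

set_option autoImplicit false

open Module MvPolynomial

namespace Pool.Agent.P8H76.CY

variable {K : IntermediateField ℚ ℂ} {W : Submodule K ℂ} {σ : Type}

/-- coefficients in a power of `W`, bounded partial degrees -/
def Bd (W : Submodule K ℂ) (a δ : ℕ) (P : MvPolynomial σ ℂ) : Prop :=
  (∀ u, P.coeff u ∈ W ^ a) ∧ ∀ x, P.degreeOf x ≤ δ

theorem pow_mono (h1 : (1 : ℂ) ∈ W) {a b : ℕ} (h : a ≤ b) : W ^ a ≤ W ^ b := by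
  induction h with
  | refl => exact le_rfl
  | step h ih =>
    refine ih.trans ?_
    rw [pow_succ]
    intro x hx
    have := Submodule.mul_mem_mul hx h1
    rwa [mul_one] at this

theorem Bd.mono (h1 : (1 : ℂ) ∈ W) {a a' δ δ' : ℕ} {P : MvPolynomial σ ℂ} (h : Bd W a δ P) (ha : a ≤ a')
    (hδ : δ ≤ δ') : Bd W a' δ' P :=
  ⟨fun u => pow_mono h1 ha (h.1 u), fun x => (h.2 x).trans hδ⟩

theorem Bd.zero (a δ : ℕ) : Bd W a δ (0 : MvPolynomial σ ℂ) :=
  ⟨fun u => by simp, fun x => by simp⟩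

theorem Bd.add {a δ : ℕ} {P Q : MvPolynomial σ ℂ} (hP : Bd W a δ P) (hQ : Bd W a δ Q) : Bd W a δ (P + Q) :=
  ⟨fun u => by rw [coeff_add]; exact Submodule.add_mem _ (hP.1 u) (hQ.1 u),
    fun x => (degreeOf_add_le x P Q).trans (max_le (hP.2 x) (hQ.2 x))⟩

theorem Bd.neg {a δ : ℕ} {P : MvPolynomial σ ℂ} (hP : Bd W a δ P) : Bd W a δ (-P) :=
  ⟨fun u => by rw [coeff_neg]; exact Submodule.neg_mem _ (hP.1 u),
    fun x => by rw [degreeOf_neg]; exact hP.2 x⟩

theorem Bd.sub {a δ : ℕ} {P Q : MvPolynomial σ ℂ} (hP : Bd W a δ P) (hQ : Bd W a δ Q) : Bd W a δ (P - Q) := by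
  rw [sub_eq_add_neg]
  exact hP.add hQ.neg

theorem Bd.mul {a a' δ δ' : ℕ} {P Q : MvPolynomial σ ℂ} (hP : Bd W a δ P) (hQ : Bd W a' δ' Q) :
    Bd W (a + a') (δ + δ') (P * Q) := by
  classical
  refine ⟨fun u => ?_, fun x => (degreeOf_mul_le x P Q).trans (add_le_add (hP.2 x) (hQ.2 x))⟩
  rw [coeff_mul, pow_add]
  exact Submodule.sum_mem _ fun c _ => Submodule.mul_mem_mul (hP.1 _) (hQ.1 _)

theorem Bd.sum {ι : Type*} {a δ : ℕ} (s : Finset ι) {P : ι → MvPolynomial σ ℂ} (h : ∀ i ∈ s, Bd W a δ (P i)) :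
    Bd W a δ (∑ i ∈ s, P i) := by
  classical
  induction s using Finset.induction_on with
  | empty => simpa using Bd.zero a δ
  | insert i s hi ih =>
    rw [Finset.sum_insert hi]
    exact (h i (Finset.mem_insert_self _ _)).add (ih fun j hj => h j (Finset.mem_insert_of_mem hj))

theorem Bd.C {a : ℕ} {c : ℂ} (hc : c ∈ W ^ a) : Bd W a 0 (MvPolynomial.C c : MvPolynomial σ ℂ) := by
  classical
  refine ⟨fun u => ?_, fun x => by rw [degreeOf_C]⟩
  rw [coeff_C]
  split_ifs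
  · exact hc
  · exact Submodule.zero_mem _

theorem rat_mem (q : ℚ) : (algebraMap ℚ ℂ q) ∈ W ^ 0 := by
  rw [pow_zero, Submodule.mem_one]
  exact ⟨algebraMap ℚ K q, by rw [← IsScalarTower.algebraMap_apply]⟩

theorem Bd.rat (q : ℚ) : Bd W 0 0 (algebraMap ℚ (MvPolynomial σ ℂ) q) := by
  rw [IsScalarTower.algebraMap_apply ℚ ℂ (MvPolynomial σ ℂ), MvPolynomial.algebraMap_eq]
  exact Bd.C (rat_mem q)

theorem Bd.one : Bd W 0 0 (1 : MvPolynomial σ ℂ) := by
  have := Bd.rat (W := W) (σ := σ) 1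
  rwa [map_one] at this

theorem Bd.X (x : σ) : Bd W 0 1 (MvPolynomial.X x : MvPolynomial σ ℂ) := by
  classical
  refine ⟨fun u => ?_, fun y => ?_⟩
  · rw [coeff_X]
    split_ifs
    · have := rat_mem (W := W) 1
      rwa [map_one] at this
    · exact Submodule.zero_mem _
  · rw [degreeOf_X]
    split_ifs <;> simp

theorem Bd.prod {ι : Type*} {a δ : ℕ} (s : Finset ι) {P : ι → MvPolynomial σ ℂ} (h : ∀ i ∈ s, Bd W a δ (P i)) :
    Bd W (s.card * a) (s.card * δ) (∏ i ∈ s, P i) := by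
  classical
  induction s using Finset.induction_on with
  | empty => simpa using Bd.one
  | insert i s hi ih =>
    rw [Finset.prod_insert hi, Finset.card_insert_of_notMem hi]
    have := (h i (Finset.mem_insert_self _ _)).mul (ih fun j hj => h j (Finset.mem_insert_of_mem hj))
    rwa [show (s.card + 1) * a = a + s.card * a by ring, show (s.card + 1) * δ = δ + s.card * δ by ring]

theorem Bd.pow {a δ : ℕ} {P : MvPolynomial σ ℂ} (h : Bd W a δ P) (m : ℕ) : Bd W (m * a) (m * δ) (P ^ m) := by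
  induction m with
  | zero => simpa using Bd.one
  | succ m ih =>
    rw [pow_succ]
    have := ih.mul h
    rwa [show (m + 1) * a = m * a + a by ring, show (m + 1) * δ = m * δ + δ by ring]

/-- matrices with entries of this kind -/
def BdM (W : Submodule K ℂ) (a δ : ℕ) {n : ℕ} (M : Matrix (Fin n) (Fin n) (MvPolynomial σ ℂ)) : Prop :=
  ∀ i j, Bd W a δ (M i j)

variable {n : ℕ}

theorem BdM.mul {a a' δ δ' : ℕ} {M N : Matrix (Fin n) (Fin n) (MvPolynomial σ ℂ)} (hM : BdM W a δ M)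
    (hN : BdM W a' δ' N) : BdM W (a + a') (δ + δ') (M * N) := fun i j => by
  rw [Matrix.mul_apply]
  exact Bd.sum _ fun k _ => (hM i k).mul (hN k j)

theorem BdM.one : BdM W 0 0 (1 : Matrix (Fin n) (Fin n) (MvPolynomial σ ℂ)) := fun i j => by
  rw [Matrix.one_apply]
  split_ifs
  · exact Bd.one
  · exact Bd.zero _ _

theorem BdM.rat (N : Matrix (Fin n) (Fin n) ℚ) :
    BdM W 0 0 (N.map (algebraMap ℚ (MvPolynomial σ ℂ))) := fun i j => by
  rw [Matrix.map_apply]
  exact Bd.rat _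

theorem BdM.det {a δ : ℕ} {M : Matrix (Fin n) (Fin n) (MvPolynomial σ ℂ)} (hM : BdM W a δ M) :
    Bd W (n * a) (n * δ) M.det := by
  rw [Matrix.det_apply]
  refine Bd.sum _ fun s _ => ?_
  have h := Bd.prod (W := W) Finset.univ (P := fun i => M (s i) i) fun i _ => hM (s i) i
  rw [Finset.card_univ, Fintype.card_fin] at h
  rcases Int.units_eq_one_or (Equiv.Perm.sign s) with hs | hs
  · rw [hs, one_smul]
    exact h
  · rw [hs, Units.neg_smul, one_smul]
    exact h.neg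

theorem BdM.adjugate (h1 : (1 : ℂ) ∈ W) {a δ : ℕ} {M : Matrix (Fin n) (Fin n) (MvPolynomial σ ℂ)}
    (hM : BdM W a δ M) : BdM W (n * a) (n * δ) M.adjugate := fun i j => by
  rw [Matrix.adjugate_apply]
  refine BdM.det fun k l => ?_
  rw [Matrix.updateRow_apply]
  split_ifs
  · rw [Pi.single_apply]
    split_ifs
    · exact Bd.one.mono h1 (Nat.zero_le _) (Nat.zero_le _)
    · exact Bd.zero _ _
  · exact hM k l

open Pool.Agent.P8H40.CY

/-- the generic symmetric matrix -/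
noncomputable def gS (n : ℕ) : Matrix (Fin n) (Fin n) (MvPolynomial (Option (Tri n)) ℂ) :=
  sy fun p => MvPolynomial.X (some p)

/-- `1 - Ji S` -/
noncomputable def Am (Ji : Matrix (Fin n) (Fin n) ℚ) : Matrix (Fin n) (Fin n) (MvPolynomial (Option (Tri n)) ℂ) :=
  1 - Ji.map (algebraMap ℚ _) * gS n

/-- `1 + Ji S` -/
noncomputable def Ap (Ji : Matrix (Fin n) (Fin n) ℚ) : Matrix (Fin n) (Fin n) (MvPolynomial (Option (Tri n)) ℂ) :=
  1 + Ji.map (algebraMap ℚ _) * gS n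

/-- the sum of the `λ ^ i • N i` -/
noncomputable def gL (N : Fin n → Matrix (Fin n) (Fin n) ℚ) :
    Matrix (Fin n) (Fin n) (MvPolynomial (Option (Tri n)) ℂ) :=
  ∑ i : Fin n, (MvPolynomial.X none : MvPolynomial (Option (Tri n)) ℂ) ^ (i : ℕ) •
    (N i).map (algebraMap ℚ (MvPolynomial (Option (Tri n)) ℂ))

/-- the matrix `M` of the docstring -/
noncomputable def gM (C B : Matrix (Fin n) (Fin n) ℂ) (Ji : Matrix (Fin n) (Fin n) ℚ)
    (N : Fin n → Matrix (Fin n) (Fin n) ℚ) : Matrix (Fin n) (Fin n) (MvPolynomial (Option (Tri n)) ℂ) :=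
  C.map MvPolynomial.C * (Ap Ji * (Am Ji).adjugate * gL N) * B.map MvPolynomial.C

theorem bd_gS : BdM W 0 1 (gS n) := fun i j => by
  show Bd W 0 1 (MvPolynomial.X _)
  exact Bd.X _

theorem bd_Am (h1 : (1 : ℂ) ∈ W) (Ji : Matrix (Fin n) (Fin n) ℚ) : BdM W 0 1 (Am Ji) := fun i j => by
  have h := ((BdM.rat (W := W) Ji).mul bd_gS) i j
  rw [Nat.zero_add, Nat.zero_add] at h
  exact (((BdM.one i j).mono h1 le_rfl (Nat.zero_le 1)).sub h)

theorem bd_Ap (h1 : (1 : ℂ) ∈ W) (Ji : Matrix (Fin n) (Fin n) ℚ) : BdM W 0 1 (Ap Ji) := fun i j => by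
  have h := ((BdM.rat (W := W) Ji).mul bd_gS) i j
  rw [Nat.zero_add, Nat.zero_add] at h
  exact (((BdM.one i j).mono h1 le_rfl (Nat.zero_le 1)).add h)

theorem bd_lam (h1 : (1 : ℂ) ∈ W) (N : Fin n → Matrix (Fin n) (Fin n) ℚ) :
    BdM W 0 n (gL N) := fun k l => by
  rw [gL, Matrix.sum_apply]
  refine Bd.sum _ fun i _ => ?_
  rw [Matrix.smul_apply, smul_eq_mul]
  have h := ((Bd.X (W := W) (none : Option (Tri n))).pow (i : ℕ)).mul (BdM.rat (W := W) (N i) k l)
  refine h.mono h1 (by simp) ?_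
  rw [mul_one, add_zero]
  exact i.2.le

theorem bd_gM (h1 : (1 : ℂ) ∈ W) {a : ℕ} {C B : Matrix (Fin n) (Fin n) ℂ} (hC : ∀ i j, C i j ∈ W ^ a)
    (hB : ∀ i j, B i j ∈ W ^ a) (Ji : Matrix (Fin n) (Fin n) ℚ) (N : Fin n → Matrix (Fin n) (Fin n) ℚ) :
    BdM W (2 * a) (1 + 2 * n) (gM C B Ji N) := by
  have hCm : BdM (σ := Option (Tri n)) W a 0 (C.map MvPolynomial.C) := fun i j => by
    rw [Matrix.map_apply]; exact Bd.C (hC i j)
  have hBm : BdM (σ := Option (Tri n)) W a 0 (B.map MvPolynomial.C) := fun i j => by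
    rw [Matrix.map_apply]; exact Bd.C (hB i j)
  have h := (hCm.mul (((bd_Ap h1 Ji).mul ((bd_Am h1 Ji).adjugate h1)).mul (bd_lam h1 N))).mul hBm
  intro i j
  refine (h i j).mono h1 ?_ ?_
  · simp; omega
  · omega

/-! ## values -/

/-- evaluation of the entries -/
theorem ev_gS (y : Option (Tri n) → ℂ) : (gS n).map (MvPolynomial.eval y) = sy fun p => y (some p) := by
  ext i j
  simp [gS, sy]

theorem ev_rat (y : Option (Tri n) → ℂ) (N : Matrix (Fin n) (Fin n) ℚ) :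
    (N.map (algebraMap ℚ (MvPolynomial (Option (Tri n)) ℂ))).map (MvPolynomial.eval y) = N.map (algebraMap ℚ ℂ) := by
  ext i j
  rw [Matrix.map_apply, Matrix.map_apply, Matrix.map_apply,
    IsScalarTower.algebraMap_apply ℚ ℂ (MvPolynomial (Option (Tri n)) ℂ), MvPolynomial.algebraMap_eq, eval_C]

theorem ev_Am (y : Option (Tri n) → ℂ) (Ji : Matrix (Fin n) (Fin n) ℚ) :
    (Am Ji).map (MvPolynomial.eval y) = 1 - Ji.map (algebraMap ℚ ℂ) * sy fun p => y (some p) := by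
  rw [← ev_rat y Ji, ← ev_gS y, Am, ← RingHom.mapMatrix_apply, map_sub, map_mul, map_one]
  rfl

theorem ev_Ap (y : Option (Tri n) → ℂ) (Ji : Matrix (Fin n) (Fin n) ℚ) :
    (Ap Ji).map (MvPolynomial.eval y) = 1 + Ji.map (algebraMap ℚ ℂ) * sy fun p => y (some p) := by
  rw [← ev_rat y Ji, ← ev_gS y, Ap, ← RingHom.mapMatrix_apply, map_add, map_mul, map_one]
  rfl

theorem ev_gL (y : Option (Tri n) → ℂ) (N : Fin n → Matrix (Fin n) (Fin n) ℚ) :
    (gL N).map (MvPolynomial.eval y) = ∑ i : Fin n, (y none) ^ (i : ℕ) • (N i).map (algebraMap ℚ ℂ) := by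
  rw [gL, ← RingHom.mapMatrix_apply, map_sum]
  refine Finset.sum_congr rfl fun i _ => ?_
  rw [← ev_rat y (N i)]
  ext k l
  simp

theorem ev_C (y : Option (Tri n) → ℂ) (C : Matrix (Fin n) (Fin n) ℂ) :
    (C.map (MvPolynomial.C (σ := Option (Tri n)))).map (MvPolynomial.eval y) = C := by
  ext i j
  simp

theorem ev_gM (y : Option (Tri n) → ℂ) (C B : Matrix (Fin n) (Fin n) ℂ) (Ji : Matrix (Fin n) (Fin n) ℚ)
    (N : Fin n → Matrix (Fin n) (Fin n) ℚ) (g : Matrix (Fin n) (Fin n) ℂ)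
    (hg : g * (1 - Ji.map (algebraMap ℚ ℂ) * sy (fun p => y (some p))) =
      1 + Ji.map (algebraMap ℚ ℂ) * sy (fun p => y (some p))) :
    (gM C B Ji N).map (MvPolynomial.eval y) = (1 - Ji.map (algebraMap ℚ ℂ) * sy (fun p => y (some p))).det •
      (C * (g * ∑ i : Fin n, (y none) ^ (i : ℕ) • (N i).map (algebraMap ℚ ℂ)) * B) := by
  have h0 : ((Am Ji).adjugate).map (MvPolynomial.eval y) =
      (1 - Ji.map (algebraMap ℚ ℂ) * sy (fun p => y (some p))).adjugate := by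
    rw [← ev_Am, ← RingHom.mapMatrix_apply, RingHom.map_adjugate]
    rfl
  rw [gM, ← RingHom.mapMatrix_apply, map_mul, map_mul, map_mul, map_mul, RingHom.mapMatrix_apply,
    RingHom.mapMatrix_apply, RingHom.mapMatrix_apply, RingHom.mapMatrix_apply, RingHom.mapMatrix_apply,
    ev_C, ev_C, ev_Ap, ev_gL, h0, ← hg, Matrix.mul_assoc g, Matrix.mul_adjugate, Matrix.mul_smul, Matrix.mul_one,
    Matrix.smul_mul, Matrix.mul_smul, Matrix.smul_mul]

/-! ## the homogenised polynomial -/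

/-- the term of the monomial `u` -/
noncomputable def term {r : ℕ} (θ : Fin r → ℂ) (c : ℂ) (M : Matrix (Fin n) (Fin n) (MvPolynomial (Option (Tri n)) ℂ))
    (d : MvPolynomial (Option (Tri n)) ℂ) (b : ℕ) (u : (Fin r ⊕ Option (Fin n × Fin n)) →₀ ℕ) :
    MvPolynomial (Option (Tri n)) ℂ :=
  MvPolynomial.C (c * ∏ i, θ i ^ u (Sum.inl i)) * (MvPolynomial.X none ^ u (Sum.inr none) *
    ((∏ p : Fin n × Fin n, M p.1 p.2 ^ u (Sum.inr (some p))) *
      d ^ (b - ∑ p : Fin n × Fin n, u (Sum.inr (some p)))))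

theorem prod_mem {ι : Type*} {a : ℕ} (s : Finset ι) {f : ι → ℂ} (h : ∀ i ∈ s, f i ∈ W ^ a) :
    ∏ i ∈ s, f i ∈ W ^ (s.card * a) := by
  classical
  induction s using Finset.induction_on with
  | empty =>
    have := rat_mem (W := W) 1
    rw [map_one] at this
    simpa using this
  | insert i s hi ih =>
    rw [Finset.prod_insert hi, Finset.card_insert_of_notMem hi, show (s.card + 1) * a = a + s.card * a by ring,
      pow_add]
    exact Submodule.mul_mem_mul (h i (Finset.mem_insert_self _ _)) (ih fun j hj => h j (Finset.mem_insert_of_mem hj))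

theorem bd_term (h1 : (1 : ℂ) ∈ W) {r δ : ℕ} {θ : Fin r → ℂ} (hθ : ∀ i, θ i ∈ W) {c : ℂ} (hc : c ∈ W ^ 0)
    {M : Matrix (Fin n) (Fin n) (MvPolynomial (Option (Tri n)) ℂ)} {aM dM : ℕ} (hM : BdM W aM dM M)
    {d : MvPolynomial (Option (Tri n)) ℂ} {ad dd : ℕ} (hd : Bd W ad dd d) (b : ℕ)
    {u : (Fin r ⊕ Option (Fin n × Fin n)) →₀ ℕ} (hu : ∀ x, u x ≤ δ) :
    Bd W (r * δ + (n * n * (δ * aM) + b * ad)) (δ + (n * n * (δ * dM) + b * dd)) (term θ c M d b u) := by
  have e1 : Bd (σ := Option (Tri n)) W (0 + r * δ) 0 (MvPolynomial.C (c * ∏ i, θ i ^ u (Sum.inl i))) := by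
    refine Bd.C ?_
    rw [pow_add]
    refine Submodule.mul_mem_mul hc ?_
    have := prod_mem (W := W) (a := δ) Finset.univ (f := fun i => θ i ^ u (Sum.inl i)) fun i _ =>
      pow_mono h1 (hu (Sum.inl i)) (Submodule.pow_mem_pow W (hθ i) _)
    rwa [Finset.card_univ, Fintype.card_fin] at this
  have e2 : Bd (σ := Option (Tri n)) W 0 δ (MvPolynomial.X none ^ u (Sum.inr none)) :=
    ((Bd.X (W := W) (none : Option (Tri n))).pow _).mono h1 (by simp) (by rw [mul_one]; exact hu _)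
  have e3 := Bd.prod (W := W) Finset.univ (P := fun p : Fin n × Fin n => M p.1 p.2 ^ u (Sum.inr (some p)))
    (a := δ * aM) (δ := δ * dM) fun p _ => ((hM p.1 p.2).pow _).mono h1
      (Nat.mul_le_mul_right _ (hu _)) (Nat.mul_le_mul_right _ (hu _))
  rw [Finset.card_univ, Fintype.card_prod, Fintype.card_fin] at e3
  have e4 : Bd W (b * ad) (b * dd) (d ^ (b - ∑ p : Fin n × Fin n, u (Sum.inr (some p)))) :=
    (hd.pow _).mono h1 (Nat.mul_le_mul_right _ (Nat.sub_le _ _)) (Nat.mul_le_mul_right _ (Nat.sub_le _ _))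
  refine (e1.mul (e2.mul (e3.mul e4))).mono h1 ?_ ?_
  · omega
  · omega

theorem ev_term {r : ℕ} (θ : Fin r → ℂ) (c : ℂ) (M : Matrix (Fin n) (Fin n) (MvPolynomial (Option (Tri n)) ℂ))
    (d : MvPolynomial (Option (Tri n)) ℂ) (b : ℕ) (u : (Fin r ⊕ Option (Fin n × Fin n)) →₀ ℕ)
    (hb : ∑ p : Fin n × Fin n, u (Sum.inr (some p)) ≤ b) (y : Option (Tri n) → ℂ) (D : ℂ)
    (hD : MvPolynomial.eval y d = D) (m : Matrix (Fin n) (Fin n) ℂ) (hm : M.map (MvPolynomial.eval y) = D • m) :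
    MvPolynomial.eval y (term θ c M d b u) = D ^ b * (c * ∏ x, (Sum.elim θ fun o : Option (Fin n × Fin n) =>
      o.elim (y none) fun p => m p.1 p.2) x ^ u x) := by
  have h1 : ∀ i j, MvPolynomial.eval y (M i j) = D * m i j := fun i j => by
    have := congrFun (congrFun hm i) j
    rwa [Matrix.map_apply, Matrix.smul_apply, smul_eq_mul] at this
  rw [term, Fintype.prod_sum_type, Fintype.prod_option]
  simp only [map_mul, map_pow, map_prod, eval_C, eval_X, hD, h1, Sum.elim_inl, Sum.elim_inr, Option.elim_none,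
    Option.elim_some, mul_pow, Finset.prod_mul_distrib, Finset.prod_pow_eq_pow_sum]
  obtain ⟨e, he⟩ := Nat.exists_eq_add_of_le hb
  rw [he, Nat.add_sub_cancel_left, pow_add]
  ring

theorem pol : S_POL := by
  intro n r δ a
  refine ⟨r * δ + (n * n * (δ * (2 * a)) + n * n * δ * (n * 0)),
    δ + (n * n * (δ * (1 + 2 * n)) + n * n * δ * (n * 1)), n * n * δ, ?_⟩
  intro K W h1 θ hθ F hF C B hC hB Ji N
  refine ⟨∑ u ∈ F.support, term θ (algebraMap K ℂ (F.coeff u)) (gM C B Ji N) (Am Ji).det (n * n * δ) u, ?_, ?_, ?_⟩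
  · exact (Bd.sum _ fun u hu => bd_term h1 hθ (by
      rw [pow_zero, Submodule.mem_one]; exact ⟨_, rfl⟩) (bd_gM h1 hC hB Ji N) (bd_Am h1 Ji).det _
        fun x => (monomial_le_degreeOf x hu).trans (hF x)).1
  · exact (Bd.sum _ fun u hu => bd_term h1 hθ (by
      rw [pow_zero, Submodule.mem_one]; exact ⟨_, rfl⟩) (bd_gM h1 hC hB Ji N) (bd_Am h1 Ji).det _
        fun x => (monomial_le_degreeOf x hu).trans (hF x)).2
  · intro y g _ hg
    rw [map_sum, aeval_def, eval₂_eq', Finset.mul_sum]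
    refine Finset.sum_congr rfl fun u hu => ?_
    refine ev_term θ _ _ _ _ u ?_ y _ ?_ _ (ev_gM y C B Ji N g hg)
    · calc ∑ p : Fin n × Fin n, u (Sum.inr (some p)) ≤ ∑ _p : Fin n × Fin n, δ :=
            Finset.sum_le_sum fun p _ => (monomial_le_degreeOf _ hu).trans (hF _)
        _ = n * n * δ := by simp
    · rw [RingHom.map_det, RingHom.mapMatrix_apply, ev_Am]

end Pool.Agent.P8H76.CY
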